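import Pool.Agent.helper32.NN.Spec

/-!
# Project NN: STR (the structure theorem)
-/

set_option autoImplicit false

namespace Pool.Agent.NN

universe u v

theorem STR_mem (K : Type u) (A : Type v) [Field K] [NonUnitalRing A] [Module K A]
    [IsScalarTower K A A] [SMulCommClass K A A] (J : Submodule K A) (a : A) :
    Unitization.inrHom K K A a ∈ im K A J ↔ a ∈ J := by
  constructor
  · intro h
    obtain ⟨b, hb, hba⟩ := Submodule.mem_map.1 h
    have : b = a := Unitization.inr_injective hba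
    rw [← this]
    exact hb
  · intro h
    exact Submodule.mem_map_of_mem h

theorem STR (hTRA : TRA_stmt.{u, v}) (hTRT : TRT_stmt.{u, v}) (hTKP : TKP_stmt.{u, max u v})
    (hGEN : GEN_stmt.{u, max u v}) : STR_stmt.{u, v} := by
  intro K A _ _ _ _ _ hrk hPN hnN
  obtain ⟨t1, t2, t3, t4, t5, t6⟩ := hTRA K A
  have hC := t1 hrk hPN hnN
  have hTK := hTKP K (Unitization K A) (im K A ⊤) hC
  obtain ⟨_, g2, g3⟩ := hGEN K (Unitization K A) (im K A ⊤) hC
  have hT := hTRT K A
  have hne : ∀ k : ℕ, TS K A k ≠ ⊤ := by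
    intro k h
    have h1 := (hTK (k + 1)).2.1
    rw [hT, h] at h1
    exact h1 rfl
  have hid : ∀ k : ℕ, IdealOf K A (TS K A k) := by
    intro k
    have h1 := (hTK (k + 1)).1
    rw [hT] at h1
    exact (t2 _).1 h1
  have hB : ∀ B : NonUnitalSubalgebra K A, B ≠ ⊤ → ∃ k : ℕ, ∀ b ∈ B, b ∈ TS K A k := by
    intro B hBT
    have h1 : im K A B.toSubmodule ≤ im K A ⊤ := (t5 _ _).2 le_top
    have h2 : im K A B.toSubmodule * im K A B.toSubmodule ≤ im K A B.toSubmodule :=
      (t6 _).2 fun x hx y hy => B.mul_mem hx hy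
    have h3 : im K A B.toSubmodule ≠ im K A ⊤ := by
      intro h
      apply hBT
      have h4 : (⊤ : Submodule K A) ≤ B.toSubmodule := (t5 _ _).1 h.ge
      rw [eq_top_iff]
      intro x _
      exact h4 (Submodule.mem_top (x := x))
    obtain ⟨k, hk⟩ := g2 _ h1 h2 h3
    refine ⟨k, fun b hb => ?_⟩
    have h4 : im K A B.toSubmodule ≤ im K A (TS K A k) := by
      rw [← hT]
      exact hk.trans (hTK k).2.2.2
    exact (t5 _ _).1 h4 hb
  refine ⟨fun k => ⟨hid k, hne k, ?_, ?_⟩, fun a => ?_, hB, fun X => ⟨fun h k hk => ?_, fun h => ?_⟩⟩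
  · obtain ⟨n, hn⟩ := (hTK (k + 1)).2.2.1
    rw [hT] at hn
    refine ⟨n, (t3 _ _).1 ?_⟩
    rw [pow_succ, hn, Submodule.bot_mul]
  · have h1 := (hTK (k + 1)).2.2.2
    rw [hT, hT] at h1
    exact (t5 _ _).1 h1
  · obtain ⟨k, hk⟩ := g3 (Unitization.inrHom K K A a) ((STR_mem K A ⊤ a).2 Submodule.mem_top)
    refine ⟨k, ?_⟩
    have h1 := (hTK k).2.2.2 hk
    rw [hT] at h1
    exact (STR_mem K A _ a).1 h1
  · apply hne k
    let S : NonUnitalSubalgebra K A :=
      { carrier := TS K A k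
        add_mem' := fun ha hb => (TS K A k).add_mem ha hb
        zero_mem' := (TS K A k).zero_mem
        mul_mem' := fun {a b} _ hb => (hid k a b hb).1
        smul_mem' := fun c x hx => (TS K A k).smul_mem c hx }
    have h1 : NonUnitalAlgebra.adjoin K X ≤ S := NonUnitalAlgebra.adjoin_le hk
    rw [h] at h1
    rw [eq_top_iff]
    intro x _
    exact h1 (NonUnitalAlgebra.mem_top (x := x))
  · by_contra hcon
    obtain ⟨k, hk⟩ := hB _ hcon
    exact h k fun x hx => hk x (NonUnitalAlgebra.subset_adjoin K hx)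

end Pool.Agent.NN
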